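import Mathlib

/-!
# MP_e6b6d5: a system disjoint from all minimal systems whose generic orbit closures do not
have dense minimal points.
-/

universe v

namespace Pool.Agent.Results.MP_e6b6d5_an.GenericOrbits

open Set Function

section Defs

variable {X : Type*} [TopologicalSpace X] {Y : Type*} [TopologicalSpace Y]

/-- The closure of the forward orbit of `x`. -/
def orbitClosure (T : X → X) (x : X) : Set X := closure {y | ∃ n : ℕ, y = T^[n] x}

/-- `x` is a minimal point: its orbit closure has no proper nonempty closed invariant subset. -/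
def IsMinimalPoint (T : X → X) (x : X) : Prop :=
  ∀ C ⊆ orbitClosure T x, IsClosed C → C.Nonempty → MapsTo T C C → C = orbitClosure T x

/-- The subsystem `(K,T)` has dense minimal points. -/
def HasDenseMinimalPoints (T : X → X) (K : Set X) : Prop :=
  K ⊆ closure {z | z ∈ K ∧ IsMinimalPoint T z}

/-- `(Y,S)` is minimal: no proper nonempty closed invariant subset. -/
def IsMinimalSystem (S : Y → Y) : Prop :=
  ∀ C : Set Y, IsClosed C → C.Nonempty → MapsTo S C C → C = univ

/-- `J` is a joining of `(X,T)` and `(Y,S)`. -/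
def IsJoining (T : X → X) (S : Y → Y) (J : Set (X × Y)) : Prop :=
  IsClosed J ∧ J.Nonempty ∧ MapsTo (Prod.map T S) J J ∧ Prod.fst '' J = univ ∧
    Prod.snd '' J = univ

/-- `(X,T)` and `(Y,S)` are disjoint. -/
def AreDisjoint (T : X → X) (S : Y → Y) : Prop := ∀ J, IsJoining T S J → J = univ

/-- `(X,T)` is disjoint from all minimal systems. -/
def DisjointFromAllMinimal (T : X → X) : Prop :=
  ∀ (Y : Type v) [MetricSpace Y] [CompactSpace Y] (S : Y → Y), Continuous S → Surjective S →
    IsMinimalSystem S → AreDisjoint T S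

end Defs

/-! ### Minimal systems: hitting times along progressions -/

lemma exists_min {Y : Type*} [TopologicalSpace Y] [CompactSpace Y] [Nonempty Y] (F : Y → Y) :
    ∃ Z : Set Y, IsClosed Z ∧ Z.Nonempty ∧ MapsTo F Z Z ∧
      ∀ Z' ⊆ Z, IsClosed Z' → Z'.Nonempty → MapsTo F Z' Z' → Z' = Z := by
  obtain ⟨m, -, hm⟩ := zorn_superset_nonempty
    {Z : Set Y | IsClosed Z ∧ Z.Nonempty ∧ MapsTo F Z Z} (by
      intro c hc hchain hne
      refine ⟨⋂₀ c, ⟨isClosed_sInter fun s hs => (hc hs).1, ?_, ?_⟩, fun s hs =>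
        sInter_subset_of_mem hs⟩
      · have hne' : Nonempty c := hne.to_subtype
        have hdir : DirectedOn (· ⊇ ·) c := by
          intro a ha b hb
          rcases hchain.total ha hb with h | h
          · exact ⟨a, ha, subset_rfl, h⟩
          · exact ⟨b, hb, h, subset_rfl⟩
        exact IsCompact.nonempty_sInter_of_directed_nonempty_isCompact_isClosed
          (S := c) hdir (fun s hs => (hc hs).2.1)
          (fun s hs => (hc hs).1.isCompact) (fun s hs => (hc hs).1)
      · intro x hx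
        refine mem_sInter.2 fun s hs => (hc hs).2.2 (mem_sInter.1 hx s hs)) univ
    ⟨isClosed_univ, univ_nonempty, mapsTo_univ _ _⟩
  refine ⟨m, hm.prop.1, hm.prop.2.1, hm.prop.2.2, fun Z' hZ' h1 h2 h3 => ?_⟩
  exact Subset.antisymm hZ' (hm.2 ⟨h1, h2, h3⟩ hZ')

lemma hit {Y : Type*} [MetricSpace Y] [CompactSpace Y] {S : Y → Y} (hS : Continuous S)
    (hmin : IsMinimalSystem S) {V : Set Y} (hV : IsOpen V) (hVne : V.Nonempty) {d : ℕ}
    (hd : 0 < d) (y : Y) :
    ∃ r L : ℕ, ∀ a, a ≡ r [MOD d] → ∃ i < L, S^[a + i * d] y ∈ V := by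
  have hne : Nonempty Y := ⟨y⟩
  obtain ⟨Z, hZc, hZne, hZinv, hZmin⟩ := exists_min (S^[d])
  have hSk : ∀ k, Continuous (S^[k]) := fun k => hS.iterate k
  -- the union of the translates is everything
  have hU : (⋃ k ∈ Finset.range d, S^[k] '' Z) = univ := by
    refine hmin _ ?_ ?_ ?_
    · refine (Finset.finite_toSet _).isClosed_biUnion fun k _ => ?_
      exact (hZc.isCompact.image (hSk k)).isClosed
    · obtain ⟨z, hz⟩ := hZne
      exact ⟨z, mem_biUnion (show 0 ∈ Finset.range d from Finset.mem_range.2 hd) ⟨z, hz, rfl⟩⟩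
    · intro x hx
      obtain ⟨k, hk, z, hz, rfl⟩ := by simpa using hx
      have hk' : k < d := hk
      simp only [mem_iUnion, Finset.mem_range, mem_image]
      by_cases hkd : k + 1 < d
      · exact ⟨k + 1, hkd, z, hz, by rw [Function.iterate_succ_apply']⟩
      · refine ⟨0, hd, S^[d] z, hZinv hz, ?_⟩
        have : d = k + 1 := by omega
        rw [this, Function.iterate_succ_apply']; rfl
  obtain ⟨v₀, hv₀⟩ := hVne
  have hy := (eq_univ_iff_forall.1 hU) y
  have hv := (eq_univ_iff_forall.1 hU) v₀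
  simp only [mem_iUnion, Finset.mem_range, mem_image] at hy hv
  obtain ⟨k, hk, z, hz, hzy⟩ := hy
  obtain ⟨k', hk', z', hz', hzv⟩ := hv
  have hFinv : ∀ j, ∀ u ∈ Z, (S^[d])^[j] u ∈ Z := fun j u hu => hZinv.iterate j hu
  have hhit : ∀ u ∈ Z, ∃ i, S^[k'] ((S^[d])^[i] u) ∈ V := by
    intro u hu
    have h1 : closure {w | ∃ n : ℕ, w = (S^[d])^[n] u} = Z := by
      refine hZmin _ ?_ isClosed_closure ⟨u, subset_closure ⟨0, rfl⟩⟩ ?_
      · refine closure_minimal ?_ hZc
        rintro w ⟨n, rfl⟩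
        exact hFinv n u hu
      · intro w hw
        refine map_mem_closure (hSk d) hw ?_
        rintro w ⟨n, rfl⟩
        exact ⟨n + 1, by rw [Function.iterate_succ_apply']⟩
    have h2 : z' ∈ closure {w | ∃ n : ℕ, w = (S^[d])^[n] u} := by rw [h1]; exact hz'
    obtain ⟨w, hw, n, rfl⟩ := mem_closure_iff.1 h2 _ (hV.preimage (hSk k'))
      (by show S^[k'] z' ∈ V; rw [hzv]; exact hv₀)
    exact ⟨n, hw⟩
  obtain ⟨t, ht⟩ := hZc.isCompact.elim_finite_subcover
    (fun i : ℕ => {u | S^[k'] ((S^[d])^[i] u) ∈ V})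
    (fun i => hV.preimage ((hSk k').comp ((hSk d).iterate i)))
    (fun u hu => mem_iUnion.2 (hhit u hu))
  refine ⟨k' + (d - k), t.sup id + 1, fun a ha => ?_⟩
  have hak : a + k ≡ k' [MOD d] := by
    have h1 : a + k ≡ k' + (d - k) + k [MOD d] := ha.add_right k
    have h2 : k' + (d - k) + k = k' + d := by omega
    rw [h2] at h1
    refine h1.trans ?_
    show (k' + d) % d = k' % d
    simp
  obtain ⟨j, hj⟩ : ∃ j, a + k = k' + d * j := by
    refine ⟨(a + k) / d, ?_⟩
    have h1 : (a + k) % d = k' := by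
      have : (a + k) % d = k' % d := hak
      rw [this, Nat.mod_eq_of_lt hk']
    have h2 := Nat.mod_add_div (a + k) d
    omega
  have hjZ := hFinv j z hz
  have h3 := ht hjZ
  simp only [mem_iUnion] at h3
  obtain ⟨i, hi, hiV⟩ := h3
  refine ⟨i, Nat.lt_succ_of_le (Finset.le_sup (f := id) hi), ?_⟩
  have e : S^[a + i * d] y = S^[k'] ((S^[d])^[i] ((S^[d])^[j] z)) := by
    rw [← hzy, ← Function.iterate_add_apply, ← Function.iterate_mul, ← Function.iterate_mul,
      ← Function.iterate_add_apply, ← Function.iterate_add_apply]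
    congr 1
    have : a + i * d + k = k' + d * j + i * d := by omega
    rw [this]; ring
  rw [e]; exact hiV

/-! ### The system -/

/-- the defining condition: if `p_k = 1` then every `1` of `x` is soon followed by a run of `k`
zeros -/
def Cond (q : (ℕ → Bool) × (ℕ → Bool)) : Prop :=
  ∀ k, q.1 k = true → ∀ n, q.2 n = true →
    ∃ j, n < j ∧ j ≤ n + k + 1 ∧ ∀ t, j ≤ t → t < j + k → q.2 t = false

/-- the space -/
abbrev X := {q : (ℕ → Bool) × (ℕ → Bool) // Cond q}

lemma isClosed_coord1 (k : ℕ) (b : Bool) :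
    IsClosed {q : (ℕ → Bool) × (ℕ → Bool) | q.1 k = b} := by
  have hc : Continuous fun q : (ℕ → Bool) × (ℕ → Bool) => q.1 k :=
    (continuous_apply k).comp continuous_fst
  exact (isClosed_discrete ({b} : Set Bool)).preimage hc

lemma isClosed_coord2 (k : ℕ) (b : Bool) :
    IsClosed {q : (ℕ → Bool) × (ℕ → Bool) | q.2 k = b} := by
  have hc : Continuous fun q : (ℕ → Bool) × (ℕ → Bool) => q.2 k :=
    (continuous_apply k).comp continuous_snd
  exact (isClosed_discrete ({b} : Set Bool)).preimage hc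

lemma isClosed_Cond : IsClosed {q | Cond q} := by
  have : {q | Cond q} = ⋂ k, ⋂ n, ({q : (ℕ → Bool) × (ℕ → Bool) | q.1 k = false} ∪
      ({q : (ℕ → Bool) × (ℕ → Bool) | q.2 n = false} ∪
        ⋃ j ∈ Finset.Icc (n + 1) (n + k + 1), ⋂ t ∈ Finset.Ico j (j + k),
          {q : (ℕ → Bool) × (ℕ → Bool) | q.2 t = false})) := by
    ext q
    simp only [mem_iInter, mem_union, mem_iUnion, Finset.mem_Icc, Finset.mem_Ico]
    constructor
    · intro h k n
      by_cases h1 : q.1 k = true
      · by_cases h2 : q.2 n = true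
        · right; right
          obtain ⟨j, hj1, hj2, hj3⟩ := h k h1 n h2
          exact ⟨j, ⟨hj1, hj2⟩, fun t ht => hj3 t ht.1 ht.2⟩
        · right; left; simpa using h2
      · left; simpa using h1
    · intro h k h1 n h2
      rcases h k n with h3 | h3 | ⟨j, hj, hj'⟩
      · exact absurd (h1.symm.trans h3) (by decide)
      · exact absurd (h2.symm.trans h3) (by decide)
      · exact ⟨j, hj.1, hj.2, fun t h4 h5 => hj' t ⟨h4, h5⟩⟩
  rw [this]
  refine isClosed_iInter fun k => isClosed_iInter fun n => ?_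
  refine (isClosed_coord1 k false).union ((isClosed_coord2 n false).union ?_)
  refine (Finset.finite_toSet _).isClosed_biUnion fun j _ => ?_
  exact isClosed_biInter fun t _ => isClosed_coord2 t false

instance : CompactSpace X := isCompact_iff_compactSpace.1 isClosed_Cond.isCompact

/-- the map: identity times shift -/
def T (q : X) : X := ⟨(q.1.1, fun n => q.1.2 (n + 1)), by
  intro k hk n hn
  obtain ⟨j, h1, h2, h3⟩ := q.2 k hk (n + 1) hn
  refine ⟨j - 1, by omega, by omega, fun t ht1 ht2 => ?_⟩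
  exact h3 (t + 1) (by omega) (by omega)⟩

lemma T_cont : Continuous T := by
  refine Continuous.subtype_mk (Continuous.prodMk ?_ ?_) _
  · exact continuous_fst.comp continuous_subtype_val
  · exact continuous_pi fun n => (continuous_apply (n + 1)).comp
      (continuous_snd.comp continuous_subtype_val)

lemma T_surj : Surjective T := by
  intro q
  refine ⟨⟨(q.1.1, fun n => if n = 0 then false else q.1.2 (n - 1)), ?_⟩, ?_⟩
  · intro k hk n hn
    by_cases h0 : n = 0
    · simp [h0] at hn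
    · simp only [h0, if_false] at hn
      obtain ⟨j, h1, h2, h3⟩ := q.2 k hk (n - 1) hn
      refine ⟨j + 1, by omega, by omega, fun t ht1 ht2 => ?_⟩
      have h4 : t ≠ 0 := by omega
      simp only [h4, if_false]
      exact h3 (t - 1) (by omega) (by omega)
  · apply Subtype.ext
    show (q.1.1, fun n => if n + 1 = 0 then false else q.1.2 (n + 1 - 1)) = q.1
    simp

lemma T_iter (n : ℕ) (q : X) : (T^[n] q).1.1 = q.1.1 ∧ ∀ m, (T^[n] q).1.2 m = q.1.2 (m + n) := by
  induction n generalizing q with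
  | zero => exact ⟨rfl, fun m => rfl⟩
  | succ n ih =>
    rw [Function.iterate_succ_apply]
    refine ⟨(ih (T q)).1, fun m => ?_⟩
    rw [(ih (T q)).2 m]
    show q.1.2 (m + n + 1) = q.1.2 (m + (n + 1))
    rfl

lemma window_seq {x : ℕ → Bool} {U : Set (ℕ → Bool)} (hU : U ∈ nhds x) :
    ∃ N, ∀ y : ℕ → Bool, (∀ k < N, y k = x k) → y ∈ U := by
  obtain ⟨W, hWU, hWo, hxW⟩ := mem_nhds_iff.1 hU
  obtain ⟨F, u, hu, huW⟩ := isOpen_pi_iff.1 hWo x hxW
  refine ⟨F.sup id + 1, fun y hy => hWU (huW ?_)⟩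
  intro f hf
  rw [hy f (Nat.lt_succ_of_le (Finset.le_sup (f := id) hf))]
  exact (hu f hf).2

lemma window {q : X} {U : Set X} (hU : U ∈ nhds q) :
    ∃ N, ∀ q' : X, (∀ k < N, q'.1.1 k = q.1.1 k) → (∀ k < N, q'.1.2 k = q.1.2 k) → q' ∈ U := by
  obtain ⟨V, hV, hVU⟩ := mem_nhds_subtype _ _ _ |>.1 hU
  rw [nhds_prod_eq, Filter.mem_prod_iff] at hV
  obtain ⟨V1, hV1, V2, hV2, hV12⟩ := hV
  obtain ⟨N1, hN1⟩ := window_seq hV1
  obtain ⟨N2, hN2⟩ := window_seq hV2
  refine ⟨max N1 N2, fun q' h1 h2 => hVU (hV12 ⟨?_, ?_⟩)⟩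
  · exact hN1 _ fun k hk => h1 k (by omega)
  · exact hN2 _ fun k hk => h2 k (by omega)

/-! ### The points `z` -/

/-- starting position of the `l`-th block -/
def s (d : ℕ) : ℕ → ℕ
  | 0 => 0
  | l + 1 => s d l + d * l + 1

lemma s_mod (d l : ℕ) : s d l ≡ l [MOD d] := by
  induction l with
  | zero => rfl
  | succ l ih =>
    show s d l + d * l + 1 ≡ l + 1 [MOD d]
    refine Nat.ModEq.add_right 1 ?_
    have : s d l + d * l ≡ l + 0 [MOD d] :=
      ih.add ((Nat.modEq_zero_iff_dvd).2 (dvd_mul_right _ _))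
    simpa using this

lemma s_mono {d l l' : ℕ} (h : l < l') : s d l + d * l + 1 ≤ s d l' := by
  induction l' with
  | zero => omega
  | succ m ih =>
    rcases Nat.lt_succ_iff_lt_or_eq.1 h with h1 | h1
    · have := ih h1
      show s d l + d * l + 1 ≤ s d m + d * m + 1
      omega
    · subst h1; exact le_refl _

lemma marker_sep {d l i l' i' : ℕ} (hi : i < l) (hi' : i' < l') (hne : ¬ (l = l' ∧ i = i')) :
    s d l + i * d + d ≤ s d l' + i' * d ∨ s d l' + i' * d + d ≤ s d l + i * d := by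
  rcases lt_trichotomy l l' with h | h | h
  · left
    have h1 := s_mono (d := d) h
    have h2 : i * d + d ≤ d * l := by
      have : (i + 1) * d ≤ l * d := Nat.mul_le_mul_right d hi
      calc i * d + d = (i + 1) * d := by ring
        _ ≤ l * d := this
        _ = d * l := by ring
    omega
  · subst h
    rcases lt_trichotomy i i' with h | h | h
    · left
      have : (i + 1) * d ≤ i' * d := Nat.mul_le_mul_right d h
      have e : (i + 1) * d = i * d + d := by ring
      omega
    · exact absurd ⟨rfl, h⟩ hne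
    · right
      have : (i' + 1) * d ≤ i * d := Nat.mul_le_mul_right d h
      have e : (i' + 1) * d = i' * d + d := by ring
      omega
  · right
    have h1 := s_mono (d := d) h
    have h2 : i' * d + d ≤ d * l' := by
      have : (i' + 1) * d ≤ l' * d := Nat.mul_le_mul_right d hi'
      calc i' * d + d = (i' + 1) * d := by ring
        _ ≤ l' * d := this
        _ = d * l' := by ring
    omega

/-- membership in the support of `z` -/
def InZ (x : ℕ → Bool) (ℓ d n : ℕ) : Prop :=
  ∃ l i, i < l ∧ s d l + i * d ≤ n ∧ n < s d l + i * d + ℓ ∧ x (n - (s d l + i * d)) = true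

open Classical in
/-- the sequence `z` -/
noncomputable def zseq (x : ℕ → Bool) (ℓ d : ℕ) : ℕ → Bool := fun n => decide (InZ x ℓ d n)

lemma zseq_true {x : ℕ → Bool} {ℓ d n : ℕ} : zseq x ℓ d n = true ↔ InZ x ℓ d n := by
  simp [zseq]

lemma zseq_false {x : ℕ → Bool} {ℓ d n : ℕ} : zseq x ℓ d n = false ↔ ¬ InZ x ℓ d n := by
  simp [zseq]

/-- the truncated first coordinate -/
def trunc (p : ℕ → Bool) (N : ℕ) : ℕ → Bool := fun k => if k < N then p k else false

lemma z_cond {p x : ℕ → Bool} (h : Cond (p, x)) (ℓ N : ℕ) :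
    Cond (trunc p N, zseq x ℓ (ℓ + 2 * N + 1)) := by
  obtain ⟨d, hd⟩ : ∃ d, d = ℓ + 2 * N + 1 := ⟨_, rfl⟩
  rw [← hd]
  intro k hk n hn
  have hkN : k < N := by
    by_contra hcon
    simp [trunc, hcon] at hk
  have hpk : p k = true := by simpa [trunc, hkN] using hk
  obtain ⟨l, i, hil, h1, h2, h3⟩ := zseq_true.1 hn
  obtain ⟨q, hq⟩ : ∃ q, q = s d l + i * d := ⟨_, rfl⟩
  rw [← hq] at h1 h2 h3
  obtain ⟨j, hj1, hj2, hj3⟩ := h k hpk (n - q) h3
  refine ⟨q + j, by omega, by omega, fun t ht1 ht2 => ?_⟩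
  rw [zseq_false]
  rintro ⟨l', i', hil', h1', h2', h3'⟩
  by_cases hsame : l = l' ∧ i = i'
  · obtain ⟨rfl, rfl⟩ := hsame
    rw [← hq] at h1' h2' h3'
    have := hj3 (t - q) (by omega) (by omega)
    simp only at this
    rw [this] at h3'
    exact Bool.noConfusion h3'
  · rcases marker_sep (d := d) hil hil' hsame with h5 | h5 <;> omega

/-! ### Disjointness from all minimal systems -/

lemma disj : DisjointFromAllMinimal.{v} T := by
  intro Y _ _ S hS _ hmin J hJ
  obtain ⟨hJc, hJne, hJinv, hJ1, hJ2⟩ := hJ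
  by_contra hcon
  obtain ⟨⟨q, y⟩, hqy⟩ := (ne_univ_iff_exists_notMem J).1 hcon
  have hnh : Jᶜ ∈ nhds (q, y) := hJc.isOpen_compl.mem_nhds hqy
  rw [nhds_prod_eq, Filter.mem_prod_iff] at hnh
  obtain ⟨U, hU, V, hV, hUV⟩ := hnh
  obtain ⟨V', hV'V, hV'o, hyV'⟩ := mem_nhds_iff.1 hV
  obtain ⟨N, hN⟩ := window hU
  obtain ⟨d, hd⟩ : ∃ d, d = N + 2 * N + 1 := ⟨_, rfl⟩
  have hzc := z_cond (p := q.1.1) (x := q.1.2) q.2 N N
  rw [← hd] at hzc
  let z : X := ⟨_, hzc⟩
  have hz : z ∈ Prod.fst '' J := by rw [hJ1]; trivial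
  obtain ⟨⟨z', y₁⟩, hzy, hzz⟩ := hz
  have hzz' : z' = z := hzz
  obtain ⟨r, L, hrL⟩ := hit hS hmin hV'o ⟨y, hyV'⟩ (d := d) (by omega) y₁
  -- the block number
  obtain ⟨l, hlL, hlr⟩ : ∃ l, L ≤ l ∧ l ≡ r [MOD d] := by
    refine ⟨r + d * L, ?_, ?_⟩
    · have : 1 * L ≤ d * L := Nat.mul_le_mul_right _ (by omega)
      omega
    · show (r + d * L) % d = r % d
      simp
  obtain ⟨i, hiL, hiV⟩ := hrL (s d l) ((s_mod d l).trans hlr)
  have hJn : ∀ n, (T^[n] z', S^[n] y₁) ∈ J := by
    intro n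
    have := hJinv.iterate n hzy
    rwa [Prod.map_iterate] at this
  refine hUV ⟨?_, hV'V hiV⟩ (hJn (s d l + i * d))
  have hval : z'.1 = (trunc q.1.1 N, zseq q.1.2 N d) := by rw [hzz']
  refine hN _ ?_ ?_
  · intro k hk
    rw [(T_iter _ _).1, hval]
    simp [trunc, hk]
  · intro k hk
    rw [(T_iter _ _).2, hval]
    show zseq q.1.2 N d (k + (s d l + i * d)) = q.1.2 k
    rw [Bool.eq_iff_iff, zseq_true]
    constructor
    · rintro ⟨l', i', hil', h1', h2', h3'⟩
      by_cases hsame : l = l' ∧ i = i'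
      · obtain ⟨rfl, rfl⟩ := hsame
        rwa [Nat.add_sub_cancel] at h3'
      · exfalso
        rcases marker_sep (d := d) (show i < l by omega) hil' hsame with h5 | h5 <;> omega
    · intro hk'
      exact ⟨l, i, by omega, by omega, by omega, by rwa [Nat.add_sub_cancel]⟩

/-! ### Generic points -/

/-- the generic set: `p` has infinitely many ones -/
def Gen : Set X := {q | ∀ n, ∃ k, n ≤ k ∧ q.1.1 k = true}

lemma gen_Gδ : IsGδ Gen := by
  have : Gen = ⋂ n, ⋃ k, ⋃ (_ : n ≤ k), {q : X | q.1.1 k = true} := by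
    ext q; simp [Gen]
  rw [this]
  refine IsGδ.iInter_of_isOpen fun n => isOpen_iUnion fun k => isOpen_iUnion fun _ => ?_
  have hc : Continuous fun q : X => q.1.1 k :=
    (continuous_apply k).comp (continuous_fst.comp continuous_subtype_val)
  exact (isOpen_discrete ({true} : Set Bool)).preimage hc

lemma gen_dense : Dense Gen := by
  intro q
  rw [mem_closure_iff_nhds]
  intro U hU
  obtain ⟨N, hN⟩ := window hU
  have hc : Cond (fun k => if k < N then q.1.1 k else true,
      fun k => if k < N then q.1.2 k else false) := by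
    intro k hk n hn
    have hnN : n < N := by
      by_contra hcon
      simp [hcon] at hn
    have hqn : q.1.2 n = true := by simpa [hnN] using hn
    by_cases hkN : k < N
    · have hqk : q.1.1 k = true := by simpa [hkN] using hk
      obtain ⟨j, h1, h2, h3⟩ := q.2 k hqk n hqn
      refine ⟨j, h1, h2, fun t ht1 ht2 => ?_⟩
      by_cases htN : t < N
      · simp only [htN, if_true]; exact h3 t ht1 ht2
      · simp only [htN, if_false]
    · refine ⟨N, hnN, by omega, fun t ht1 _ => ?_⟩
      have : ¬ t < N := by omega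
      simp only [this, if_false]
  refine ⟨⟨_, hc⟩, hN _ ?_ ?_, ?_⟩
  · intro k hk
    show (if k < N then q.1.1 k else true) = _
    rw [if_pos hk]
  · intro k hk
    show (if k < N then q.1.2 k else false) = _
    rw [if_pos hk]
  · intro n
    refine ⟨max n N, le_max_left _ _, ?_⟩
    show (if max n N < N then q.1.1 (max n N) else true) = true
    rw [if_neg (by omega)]

/-- a closed set containing the orbit -/
lemma orbitClosure_fst {q q' : X} (h : q' ∈ orbitClosure T q) : q'.1.1 = q.1.1 := by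
  have hcl : IsClosed {q' : X | q'.1.1 = q.1.1} :=
    isClosed_eq (continuous_fst.comp continuous_subtype_val) continuous_const
  have : orbitClosure T q ⊆ {q' : X | q'.1.1 = q.1.1} := by
    refine closure_minimal ?_ hcl
    rintro _ ⟨n, rfl⟩
    exact (T_iter n q).1
  exact this h

/-- the point `(p, 0)` -/
def zp (p : ℕ → Bool) : X := ⟨(p, fun _ => false), by
  intro k _ n hn; exact absurd hn (by simp)⟩

lemma T_zp (p : ℕ → Bool) : T (zp p) = zp p := rfl

lemma zp_mem {q : X} (hq : q ∈ Gen) (h0 : q.1.2 0 = true) : zp q.1.1 ∈ orbitClosure T q := by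
  rw [orbitClosure, mem_closure_iff_nhds]
  intro U hU
  obtain ⟨N, hN⟩ := window hU
  obtain ⟨k, hk, hpk⟩ := hq N
  obtain ⟨j, h1, h2, h3⟩ := q.2 k hpk 0 h0
  refine ⟨T^[j] q, hN _ ?_ ?_, j, rfl⟩
  · intro m _
    rw [(T_iter j q).1]; rfl
  · intro m hm
    rw [(T_iter j q).2 m]
    exact h3 (m + j) (by omega) (by omega)

lemma not_min {q : X} (hq : q ∈ Gen) (h0 : q.1.2 0 = true) : ¬ IsMinimalPoint T q := by
  intro hmin
  have h1 := hmin {zp q.1.1} (by
    intro w hw
    rw [mem_singleton_iff] at hw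
    rw [hw]; exact zp_mem hq h0) isClosed_singleton (singleton_nonempty _) (by
      intro w hw
      rw [mem_singleton_iff] at hw ⊢
      rw [hw, T_zp])
  have h2 : q ∈ orbitClosure T q := subset_closure ⟨0, rfl⟩
  rw [← h1, mem_singleton_iff] at h2
  have h3 : q.1.2 0 = (zp q.1.1).1.2 0 := congrArg (fun w : X => w.1.2 0) h2
  rw [h0] at h3
  exact absurd h3 (by simp [zp])

lemma open_one : IsOpen {q : X | q.1.2 0 = true} := by
  have hc : Continuous fun q : X => q.1.2 0 :=
    (continuous_apply 0).comp (continuous_snd.comp continuous_subtype_val)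
  exact (isOpen_discrete ({true} : Set Bool)).preimage hc

lemma not_generic : ¬ ∃ Ω : Set X, IsGδ Ω ∧ Dense Ω ∧
    ∀ x ∈ Ω, HasDenseMinimalPoints T (orbitClosure T x) := by
  rintro ⟨Ω, hG, hD, hΩ⟩
  have hd := hD.inter_of_Gδ hG gen_Gδ gen_dense
  obtain ⟨q, ⟨hq1, hq2⟩, hq3⟩ := hd.exists_mem_open open_one
    ⟨⟨(fun _ => false, fun _ => true), by
      intro k hk; exact absurd hk (by simp)⟩, rfl⟩
  have h1 := hΩ q hq1
  have h2 : q ∈ orbitClosure T q := subset_closure ⟨0, rfl⟩
  obtain ⟨w, hw1, hw2, hw3⟩ := mem_closure_iff.1 (h1 h2) _ open_one hq3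
  have hwG : w ∈ Gen := by
    intro n
    obtain ⟨k, hk, hk2⟩ := hq2 n
    exact ⟨k, hk, by rw [orbitClosure_fst hw2]; exact hk2⟩
  exact not_min hwG hw1 hw3

/-- There is a system `(X,T)` (compact metric space, continuous surjective map) which is
disjoint from all minimal systems, but for no dense `G_δ` set `Ω ⊆ X` do all orbit closures of
points of `Ω` have dense minimal points. -/
theorem result : ∃ (X : Type) (_ : MetricSpace X) (_ : CompactSpace X) (T : X → X),
    Continuous T ∧ Surjective T ∧ DisjointFromAllMinimal.{v} T ∧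
    ¬ ∃ Ω : Set X, IsGδ Ω ∧ Dense Ω ∧ ∀ x ∈ Ω, HasDenseMinimalPoints T (orbitClosure T x) := by
  have h1 : TopologicalSpace.MetrizableSpace ((ℕ → Bool) × (ℕ → Bool)) :=
    TopologicalSpace.metrizableSpace_of_t3_secondCountable _
  have h2 : TopologicalSpace.MetrizableSpace X := Topology.IsEmbedding.subtypeVal.metrizableSpace
  exact ⟨X, TopologicalSpace.metrizableSpaceMetric _, inferInstance, T, T_cont, T_surj, disj,
    not_generic⟩

end Pool.Agent.Results.MP_e6b6d5_an.GenericOrbits
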